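import Pool.Agent.Helper95.OD.St

set_option autoImplicit false

namespace Pool.Agent.Helper80.OD

open Pool.Agent.Helper95.OD Finset
open scoped Classical

theorem nm1 (hND : ND) (m r : ℕ) (B : Finset (Finset (Cl m r))) :
    ∀ M : Finset (Cl m r), Tr M → (∀ N ∈ B, ¬ CC M N) →
      (Av B ∩ Ev M).card * r ^ M.card ≤ (Av B).card := by
  intro M
  induction M using Finset.induction_on with
  | empty =>
    intro _ _
    rw [Finset.card_empty, pow_zero, mul_one]
    exact Finset.card_le_card Finset.inter_subset_left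
  | insert c M hc ih =>
    intro hT hB
    have hT' : Tr M := fun a ha b hb h =>
      hT a (Finset.mem_insert_of_mem ha) b (Finset.mem_insert_of_mem hb) h
    have hB' : ∀ N ∈ B, ¬ CC M N := by
      rintro N hN ⟨a, ha, b, hb, h⟩
      exact hB N hN ⟨a, Finset.mem_insert_of_mem ha, b, hb, h⟩
    have h1 : ∀ b ∈ M, b.1 ≠ c.1 := by
      intro b hb h
      have := hT b (Finset.mem_insert_of_mem hb) c (Finset.mem_insert_self _ _) h
      exact hc (this ▸ hb)
    have key := hND m r B M c
      (fun N hN b hb h => hB N hN ⟨c, Finset.mem_insert_self _ _, b, hb, h⟩)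
      (fun b hb h => h1 b hb h.1.symm) hc
    have hf : M.filter (fun b => b.1 = c.1) = ∅ := by
      rw [Finset.filter_eq_empty_iff]
      intro b hb
      exact h1 b hb
    rw [hf, Finset.card_empty, Nat.sub_zero] at key
    rw [Finset.card_insert_of_notMem hc, pow_succ]
    calc (Av B ∩ Ev (insert c M)).card * (r ^ M.card * r)
        = ((Av B ∩ Ev (insert c M)).card * r) * r ^ M.card := by ring
      _ ≤ (Av B ∩ Ev M).card * r ^ M.card := Nat.mul_le_mul_right _ key
      _ ≤ _ := ih hT' hB'

theorem hNM : NM := by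
  intro hND m r B
  refine ⟨nm1 hND m r B, ?_⟩
  intro M a b hT hMa hab h1 h2 hB
  have hB' : ∀ N ∈ B, ¬ CC M N := by
    rintro N hN ⟨x, hx, y, hy, h⟩
    exact hB N hN ⟨x, Finset.mem_insert_of_mem (Finset.mem_insert_of_mem hx), y, hy, h⟩
  have k0 := nm1 hND m r B M hT hB'
  have hbM : b ∉ M := fun h => hMa b h hab.symm
  have haM : a ∉ M := fun h => hMa a h rfl
  have k1 := hND m r B M b
    (fun N hN y hy h => hB N hN ⟨b, Finset.mem_insert_of_mem (Finset.mem_insert_self _ _), y, hy, h⟩)
    (fun x hx h => hMa x hx (hab.trans h.1).symm) hbM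
  have hf1 : M.filter (fun x => x.1 = b.1) = ∅ := by
    rw [Finset.filter_eq_empty_iff]
    intro x hx h
    exact hMa x hx (h.trans hab.symm)
  rw [hf1, Finset.card_empty, Nat.sub_zero] at k1
  have k2 := hND m r B (insert b M) a
    (fun N hN y hy h => hB N hN ⟨a, Finset.mem_insert_self _ _, y, hy, h⟩)
    (by
      intro x hx h
      rcases Finset.mem_insert.1 hx with rfl | hx
      · rcases h.2.2 with h | h
        · exact h1 h
        · exact h2 h
      · exact hMa x hx h.1.symm)
    (by
      intro h
      rcases Finset.mem_insert.1 h with h | h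
      · exact h1 (by rw [h])
      · exact haM h)
  have hf2 : (insert b M).filter (fun x => x.1 = a.1) = {b} := by
    ext x
    rw [Finset.mem_filter, Finset.mem_insert, Finset.mem_singleton]
    constructor
    · rintro ⟨h | h, h'⟩
      · exact h
      · exact absurd h' (hMa x h)
    · rintro rfl
      exact ⟨Or.inl rfl, hab.symm⟩
  rw [hf2, Finset.card_singleton] at k2
  calc (Av B ∩ Ev (insert a (insert b M))).card * (r ^ M.card * (r * (r - 1)))
      = ((Av B ∩ Ev (insert a (insert b M))).card * (r - 1)) * (r * r ^ M.card) := by ring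
    _ ≤ (Av B ∩ Ev (insert b M)).card * (r * r ^ M.card) := Nat.mul_le_mul_right _ k2
    _ = ((Av B ∩ Ev (insert b M)).card * r) * r ^ M.card := by ring
    _ ≤ (Av B ∩ Ev M).card * r ^ M.card := Nat.mul_le_mul_right _ k1
    _ ≤ _ := k0

end Pool.Agent.Helper80.OD
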